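import Pool.Agent.H21.ASY.Stmts

/-!
# ASY, row CUS: the cusps of the region `x y (x + y) ≤ T`
-/

set_option autoImplicit false

namespace Pool.ASY

open Finset MeasureTheory Pool.Agent.H98.ABCR Pool.SHA

namespace H22C

/-- the right cusp -/
def cu (T Y : ℝ) : Set (ℝ × ℝ) := {x | Y < x.1 ∧ 0 < x.2 ∧ x.2 < T / x.1 ^ 2}

theorem vol_cu (T Y : ℝ) (hT : 0 < T) (hY : 0 < Y) :
    volume (cu T Y) = ENNReal.ofReal (T / Y) := by
  have e : cu T Y = regionBetween (fun _ => (0:ℝ)) (fun u => T * u ^ (-2:ℝ)) (Set.Ioi Y) := by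
    ext x
    simp only [cu, regionBetween, Set.mem_ofPred_eq, Set.mem_Ioi, Set.mem_Ioo]
    constructor
    · rintro ⟨h1, h2, h3⟩
      refine ⟨h1, h2, ?_⟩
      have : x.1 ^ (-2:ℝ) = (x.1 ^ 2)⁻¹ := by
        rw [Real.rpow_neg (by linarith)]; norm_num
      rw [this, ← div_eq_mul_inv]; exact h3
    · rintro ⟨h1, h2, h3⟩
      refine ⟨h1, h2, ?_⟩
      have : x.1 ^ (-2:ℝ) = (x.1 ^ 2)⁻¹ := by
        rw [Real.rpow_neg (by linarith)]; norm_num
      rw [this, ← div_eq_mul_inv] at h3; exact h3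
  rw [e, Measure.volume_eq_prod, volume_regionBetween_eq_integral]
  · congr 1
    simp only [Pi.sub_apply, sub_zero]
    rw [MeasureTheory.integral_const_mul, integral_Ioi_rpow_of_lt (by norm_num) hY]
    have : Y ^ ((-2:ℝ) + 1) = Y⁻¹ := by
      rw [show (-2:ℝ) + 1 = -1 by norm_num, Real.rpow_neg_one]
    rw [this]
    field_simp
    norm_num
  · exact integrableOn_zero
  · exact (integrableOn_Ioi_rpow_of_lt (by norm_num) hY).const_mul T
  · exact measurableSet_Ioi
  · intro x hx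
    have : 0 < x := lt_trans hY hx
    positivity

theorem vol_swap (S : Set (ℝ × ℝ)) : volume (Prod.swap ⁻¹' S) = volume S := by
  have h : MeasurePreserving (MeasurableEquiv.prodComm : (ℝ × ℝ) ≃ᵐ (ℝ × ℝ)) volume volume :=
    Measure.measurePreserving_swap
  exact h.measure_preimage_equiv S

theorem sub (T Z : ℝ) :
    full T ⊆ reg T Z ∪ (cu T (Z / 2) ∪ Prod.swap ⁻¹' cu T (Z / 2)) := by
  rintro ⟨u, w⟩ ⟨h1, h2, h3⟩
  simp only at h1 h2 h3
  by_cases h : u + w ≤ Z
  · exact Or.inl ⟨h1, h2, h, h3⟩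
  · right
    push Not at h
    rcases le_total w u with h' | h'
    · left
      refine ⟨by simp only; linarith, h2, ?_⟩
      simp only
      rw [lt_div_iff₀ (by positivity)]
      nlinarith [mul_pos h1 (mul_pos h2 h2)]
    · right
      simp only [Set.mem_preimage, Prod.swap_prod_mk]
      refine ⟨by simp only; linarith, h1, ?_⟩
      simp only
      rw [lt_div_iff₀ (by positivity)]
      nlinarith [mul_pos h2 (mul_pos h1 h1)]

theorem vol_reg_le (T Z : ℝ) (hZ : 0 ≤ Z) : volume (reg T Z) ≤ ENNReal.ofReal (Z ^ 2) := by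
  have h : reg T Z ⊆ Set.Icc 0 Z ×ˢ Set.Icc 0 Z := by
    rintro ⟨u, w⟩ ⟨h1, h2, h3, h4⟩
    simp only at h1 h2 h3 h4
    exact ⟨⟨h1.le, by simp only; linarith⟩, ⟨h2.le, by simp only; linarith⟩⟩
  refine (measure_mono h).trans ?_
  rw [Measure.volume_eq_prod, Measure.prod_prod, Real.volume_Icc, ← ENNReal.ofReal_mul (by linarith)]
  apply le_of_eq
  congr 1
  ring

theorem vol_full_le (T Z : ℝ) (hT : 0 < T) (hZ : 0 < Z) :
    volume (full T) ≤ volume (reg T Z) + ENNReal.ofReal (4 * T / Z) := by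
  refine (measure_mono (sub T Z)).trans ?_
  refine (measure_union_le _ _).trans ?_
  gcongr
  refine (measure_union_le _ _).trans ?_
  rw [vol_swap, vol_cu T _ hT (by positivity), ← ENNReal.ofReal_add (by positivity) (by positivity)]
  apply le_of_eq
  congr 1
  field_simp
  norm_num

theorem full1 : volume (full 1) ≠ ⊤ := by
  have h := vol_full_le 1 1 one_pos one_pos
  have h2 := vol_reg_le 1 1 zero_le_one
  have h3 : volume (full 1) ≤ ENNReal.ofReal (1 ^ 2) + ENNReal.ofReal (4 * 1 / 1) := by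
    refine h.trans ?_
    gcongr
  exact ne_top_of_le_ne_top (by simp) h3

theorem AA_pos : 0 < AA := by
  have h : Set.Ioo (0:ℝ) (1/2) ×ˢ Set.Ioo (0:ℝ) (1/2) ⊆ full 1 := by
    rintro ⟨u, w⟩ ⟨⟨h1, h2⟩, ⟨h3, h4⟩⟩
    simp only at h1 h2 h3 h4
    refine ⟨h1, h3, ?_⟩
    simp only
    have h5 : u * w ≤ 1 := by nlinarith
    have h6 : u + w ≤ 1 := by linarith
    nlinarith [mul_pos h1 h3]
  have h2 := measure_mono (μ := volume) h
  rw [Measure.volume_eq_prod, Measure.prod_prod, Real.volume_Ioo, ← Measure.volume_eq_prod] at h2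
  unfold AA
  rw [ENNReal.toReal_pos_iff]
  refine ⟨lt_of_lt_of_le ?_ h2, lt_top_iff_ne_top.2 full1⟩
  rw [← ENNReal.ofReal_mul (by norm_num)]
  rw [ENNReal.ofReal_pos]
  norm_num

end H22C

open H22C

theorem cus_thm (h1 : S_SCA) : S_CUS := by
  refine ⟨full1, AA_pos, ?_, fun T Z => ENNReal.toReal_nonneg, ?_⟩
  · intro T Z
    rcases le_or_gt 0 Z with hZ | hZ
    · exact ENNReal.toReal_le_of_le_ofReal (sq_nonneg Z) (vol_reg_le T Z hZ)
    · have : reg T Z = ∅ := by
        ext ⟨u, w⟩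
        simp only [Set.mem_empty_iff_false, iff_false]
        rintro ⟨h1, h2, h3, h4⟩
        simp only at h1 h2 h3 h4
        linarith
      unfold Ar
      rw [this]
      simp
      positivity
  · intro T Z hT hZ
    have hf : (volume (full T)).toReal = AA * T ^ (2 / 3 : ℝ) := by
      rw [h1.2 T hT, ENNReal.toReal_mul, ENNReal.toReal_ofReal (by positivity)]
      unfold AA
      ring
    have hft : volume (full T) ≠ ⊤ := by
      rw [h1.2 T hT]
      exact ENNReal.mul_ne_top ENNReal.ofReal_ne_top full1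
    constructor
    · rw [← hf]
      unfold Ar
      apply ENNReal.toReal_mono hft
      apply measure_mono
      rintro x ⟨h1, h2, h3, h4⟩
      exact ⟨h1, h2, h4⟩
    · rw [← hf]
      have h3 := vol_full_le T Z hT hZ
      have h4 : volume (reg T Z) ≠ ⊤ :=
        ne_top_of_le_ne_top ENNReal.ofReal_ne_top (vol_reg_le T Z hZ.le)
      have h5 := ENNReal.toReal_mono (ENNReal.add_ne_top.2 ⟨h4, ENNReal.ofReal_ne_top⟩) h3
      rw [ENNReal.toReal_add h4 ENNReal.ofReal_ne_top, ENNReal.toReal_ofReal (by positivity)] at h5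
      unfold Ar
      linarith

end Pool.ASY
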