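import Pool.Agent.H21.ASY.Stmts

/-!
# ASY, row GGB: bounds for the distribution function of the height
-/

set_option autoImplicit false

namespace Pool.ASY

open Finset MeasureTheory Pool.Agent.H98.ABCR Pool.SHA
open scoped ArithmeticFunction.Moebius

namespace H22G

/-- series with a majorant of bounded partial sums -/
theorem gen (m f : ℕ → ℝ) (b C : ℝ) (hb : 0 ≤ b) (hm : ∀ d, 0 ≤ m d)
    (hC : ∀ u : Finset ℕ, ∑ d ∈ u, m d ≤ C) (hf : ∀ d, |f d| ≤ b * m d) :
    Summable f ∧ |∑' d, f d| ≤ b * C := by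
  have h1 : Summable m := summable_of_sum_le hm hC
  have h2 : Summable fun d => b * m d := h1.mul_left b
  refine ⟨Summable.of_norm_bounded h2 (fun d => by rw [Real.norm_eq_abs]; exact hf d), ?_⟩
  have h3 := tsum_of_norm_bounded h2.hasSum (fun d => by rw [Real.norm_eq_abs]; exact hf d)
  rw [Real.norm_eq_abs] at h3
  refine h3.trans ?_
  rw [tsum_mul_left]
  exact mul_le_mul_of_nonneg_left (h1.tsum_le_of_sum_le hC) hb

/-- the majorant -/
noncomputable def tt (d : ℕ) : ℝ :=
  if Sqf d then 6 ^ om d * (exc d : ℝ) ^ (2 / 3 + 1 / 24 : ℝ) / d else 0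

theorem tt_nonneg (d : ℕ) : 0 ≤ tt d := by
  unfold tt
  split_ifs
  · positivity
  · exact le_refl _

theorem bd (h5 : S_KAP) (h6 : S_EXC) (d : ℕ) (hd : 0 < d) (g : ℕ → ℝ) (B : ℝ)
    (hg : ∀ j ∈ d.divisors, |g j| ≤ B) :
    |3 ^ om d * kap d * ∑ j ∈ d.divisors, (μ (d / j) : ℝ) * g j| ≤ 6 ^ om d * B / d := by
  have hB : 0 ≤ B := (abs_nonneg _).trans (hg d (Nat.mem_divisors_self d hd.ne'))
  have e1 : |∑ j ∈ d.divisors, (μ (d / j) : ℝ) * g j| ≤ 2 ^ om d * B := by
    calc |∑ j ∈ d.divisors, (μ (d / j) : ℝ) * g j| ≤ ∑ j ∈ d.divisors, |(μ (d / j) : ℝ) * g j| :=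
          Finset.abs_sum_le_sum_abs _ _
      _ ≤ ∑ j ∈ d.divisors, |((μ (d / j) : ℤ) : ℝ)| * B := by
          apply Finset.sum_le_sum
          intro j hj
          rw [abs_mul]
          exact mul_le_mul_of_nonneg_left (hg j hj) (abs_nonneg _)
      _ = 2 ^ om d * B := by
          rw [← Finset.sum_mul, h6.2.2.2.2.2 d hd]
  obtain ⟨k0, k1⟩ := h5.2.2.2.1 d hd
  have hd' : (0:ℝ) < d := by exact_mod_cast hd
  rw [abs_mul, abs_mul, abs_of_pos k0, abs_of_pos (by positivity : (0:ℝ) < 3 ^ om d)]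
  calc 3 ^ om d * kap d * |∑ j ∈ d.divisors, (μ (d / j) : ℝ) * g j|
      ≤ 3 ^ om d * (1 / d) * (2 ^ om d * B) := by
        apply mul_le_mul _ e1 (abs_nonneg _) (by positivity)
        exact mul_le_mul_of_nonneg_left k1 (by positivity)
    _ = 6 ^ om d * B / d := by
        rw [show (6:ℝ) = 3 * 2 by norm_num, mul_pow]
        ring

end H22G

open H22G

theorem ggb_thm (h1 : S_TAI) (h2 : S_CUS) (h3 : S_CUB) (h5 : S_KAP) (h6 : S_EXC) : S_GGB := by
  obtain ⟨C1, hC1, hT1, hT2⟩ := h1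
  obtain ⟨C2, hC2, hB⟩ := h3
  have hA0 : 0 < AA := h2.2.1
  have hAr0 := h2.2.2.2.1
  -- partial sums of the majorants
  have s1 : ∀ u : Finset ℕ, ∑ d ∈ u, tt d ≤ C1 := by
    intro u
    have : ∑ d ∈ u, tt d =
        ∑ d ∈ u.filter Sqf, 6 ^ om d * (exc d : ℝ) ^ (2 / 3 + 1 / 24 : ℝ) / d := by
      rw [Finset.sum_filter]
      rfl
    rw [this]
    exact hT1 _ (fun d hd => (Finset.mem_filter.1 hd).2)
  -- facts on the excess
  have hex : ∀ d : ℕ, 0 < d → (1:ℝ) ≤ exc d := fun d hd => by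
    exact_mod_cast (h6.1 d hd).2
  have hmono : ∀ (d j : ℕ) (a : ℝ), 0 < d → 0 ≤ a → j ∈ d.divisors →
      (exc j : ℝ) ^ a ≤ (exc d : ℝ) ^ a := by
    intro d j a hd ha hj
    apply Real.rpow_le_rpow (by positivity) _ ha
    exact_mod_cast h6.2.2.2.2.1 j d hd (Nat.dvd_of_mem_divisors hj)
  have hjpos : ∀ (d j : ℕ), j ∈ d.divisors → 0 < j := fun d j hj => Nat.pos_of_mem_divisors hj
  have hE1 : ∀ d : ℕ, 0 < d → (exc d : ℝ) ^ (2 / 3 : ℝ) ≤ (exc d : ℝ) ^ (2 / 3 + 1 / 24 : ℝ) :=
    fun d hd => Real.rpow_le_rpow_of_exponent_le (hex d hd) (by norm_num)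
  have hE2 : ∀ d : ℕ, 0 < d → 1 ≤ (exc d : ℝ) ^ (2 / 3 + 1 / 24 : ℝ) :=
    fun d hd => Real.one_le_rpow (hex d hd) (by norm_num)
  refine ⟨C1 * (AA + C2 + 1), by nlinarith, ?_⟩
  intro lam hl
  -- first majorant
  have b1 : ∀ d, |cg lam d| ≤ AA * tt d := by
    intro d
    unfold cg tt
    split_ifs with hd
    · have hdp : (0:ℝ) < d := by exact_mod_cast hd.1
      unfold hA
      refine (bd h5 h6 d hd.1 (fun j => Ar (exc j) lam) (AA * (exc d : ℝ) ^ (2 / 3 : ℝ)) ?_).trans ?_
      · intro j hj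
        rw [abs_of_nonneg (hAr0 _ _)]
        have hjp := hjpos d j hj
        have hej : (0:ℝ) < exc j := by
          have := hex j hjp
          linarith
        exact ((h2.2.2.2.2 _ lam hej hl).1).trans
          (mul_le_mul_of_nonneg_left (hmono d j _ hd.1 (by norm_num) hj) hA0.le)
      · have := hE1 d hd.1
        calc 6 ^ om d * (AA * (exc d : ℝ) ^ (2 / 3 : ℝ)) / d
            ≤ 6 ^ om d * (AA * (exc d : ℝ) ^ (2 / 3 + 1 / 24 : ℝ)) / d := by gcongr
          _ = AA * (6 ^ om d * (exc d : ℝ) ^ (2 / 3 + 1 / 24 : ℝ) / d) := by ring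
    · simp
  -- second majorant
  have b2 : ∀ d, |cg lam d| ≤ lam ^ 2 * tt d := by
    intro d
    unfold cg tt
    split_ifs with hd
    · have hdp : (0:ℝ) < d := by exact_mod_cast hd.1
      unfold hA
      refine (bd h5 h6 d hd.1 (fun j => Ar (exc j) lam) (lam ^ 2) ?_).trans ?_
      · intro j hj
        rw [abs_of_nonneg (hAr0 _ _)]
        exact h2.2.2.1 _ _
      · have := hE2 d hd.1
        calc 6 ^ om d * lam ^ 2 / d
            ≤ 6 ^ om d * (lam ^ 2 * (exc d : ℝ) ^ (2 / 3 + 1 / 24 : ℝ)) / d := by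
              gcongr
              exact le_mul_of_one_le_right (sq_nonneg _) this
          _ = lam ^ 2 * (6 ^ om d * (exc d : ℝ) ^ (2 / 3 + 1 / 24 : ℝ) / d) := by ring
    · simp
  -- third majorant
  have b3 : ∀ d, |cg lam d - AA * cf d| ≤ (C2 * lam ^ (-(1 / 8) : ℝ)) * tt d := by
    intro d
    unfold cg cf tt
    split_ifs with hd
    · have hdp : (0:ℝ) < d := by exact_mod_cast hd.1
      have e : 3 ^ om d * kap d * hA lam d - AA * (3 ^ om d * kap d * HH d) =
          3 ^ om d * kap d * ∑ j ∈ d.divisors, (μ (d / j) : ℝ) *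
            (Ar (exc j) lam - AA * (exc j : ℝ) ^ (2 / 3 : ℝ)) := by
        unfold hA HH
        simp only [mul_sub, Finset.sum_sub_distrib]
        have : ∑ j ∈ d.divisors, (μ (d / j) : ℝ) * (AA * (exc j : ℝ) ^ (2 / 3 : ℝ)) =
            AA * ∑ j ∈ d.divisors, (μ (d / j) : ℝ) * (exc j : ℝ) ^ (2 / 3 : ℝ) := by
          rw [Finset.mul_sum]
          apply Finset.sum_congr rfl
          intro j _
          ring
        rw [this]
        ring
      rw [e]
      refine (bd h5 h6 d hd.1 (fun j => Ar (exc j) lam - AA * (exc j : ℝ) ^ (2 / 3 : ℝ))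
        (C2 * (exc d : ℝ) ^ (2 / 3 + 1 / 24 : ℝ) * lam ^ (-(1 / 8) : ℝ)) ?_).trans ?_
      · intro j hj
        have hjp := hjpos d j hj
        have hej : (0:ℝ) < exc j := by
          have := hex j hjp
          linarith
        rw [abs_sub_comm]
        refine (hB _ lam hej hl).trans ?_
        have := hmono d j (2 / 3 + 1 / 24 : ℝ) hd.1 (by norm_num) hj
        gcongr
      · apply le_of_eq
        ring
    · simp
  obtain ⟨m1, -⟩ := gen tt (cg lam) AA C1 hA0.le tt_nonneg s1 b1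
  obtain ⟨-, m2⟩ := gen tt (cg lam) (lam ^ 2) C1 (sq_nonneg _) tt_nonneg s1 b2
  obtain ⟨m3, m4⟩ := gen tt (fun d => cg lam d - AA * cf d) (C2 * lam ^ (-(1 / 8) : ℝ)) C1
    (by positivity) tt_nonneg s1 b3
  refine ⟨m1, ?_, ?_, ?_⟩
  · unfold GG
    refine m2.trans ?_
    have : 0 ≤ C1 * lam ^ 2 := by positivity
    nlinarith [this, hA0]
  · have hcf : Summable fun d => AA * cf d := by
      have := m1.sub m3
      refine this.congr ?_
      intro d
      ring
    have e : GG lam - AA * SS = ∑' d, (cg lam d - AA * cf d) := by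
      rw [m1.tsum_sub hcf, tsum_mul_left]
      rfl
    rw [e]
    refine m4.trans ?_
    have : 0 ≤ C1 * lam ^ (-(1 / 8) : ℝ) := by positivity
    nlinarith [this, hA0]
  · intro Y hY
    have s2 : ∀ u : Finset ℕ, ∑ d ∈ u, (if d ∈ sf Y then 0 else tt d) ≤
        C1 * Y ^ (-(1 / 24) : ℝ) := by
      intro u
      have : ∑ d ∈ u, (if d ∈ sf Y then 0 else tt d) =
          ∑ d ∈ (u.filter (fun d => ¬ d ∈ sf Y)).filter Sqf,
            6 ^ om d * (exc d : ℝ) ^ (2 / 3 + 1 / 24 : ℝ) / d := by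
        rw [Finset.sum_filter, Finset.sum_filter]
        apply Finset.sum_congr rfl
        intro d _
        by_cases hd : d ∈ sf Y
        · simp [hd]
        · simp only [hd, if_false, not_false_eq_true, if_true]
          rfl
      rw [this]
      apply hT2 Y _ hY
      intro d hd
      rw [Finset.mem_filter, Finset.mem_filter] at hd
      refine ⟨hd.2, ?_⟩
      by_contra hcon
      push Not at hcon
      apply hd.1.2
      unfold sf
      rw [Finset.mem_filter, Finset.mem_Icc]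
      exact ⟨⟨hd.2.1, Nat.le_floor hcon⟩, hd.2⟩
    obtain ⟨n1, n2⟩ := gen (fun d => if d ∈ sf Y then 0 else tt d)
      (fun d => if d ∈ sf Y then 0 else cg lam d) AA (C1 * Y ^ (-(1 / 24) : ℝ)) hA0.le
      (fun d => by
        split_ifs
        · exact le_refl _
        · exact tt_nonneg d) s2
      (fun d => by
        split_ifs
        · simp
        · exact b1 d)
    have hk : HasSum (fun d => if d ∈ sf Y then cg lam d else 0) (∑ d ∈ sf Y, cg lam d) := by
      have h0 : HasSum (fun d => if d ∈ sf Y then cg lam d else 0)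
          (∑ d ∈ sf Y, (if d ∈ sf Y then cg lam d else 0)) :=
        hasSum_sum_of_ne_finset_zero (fun d hd => by simp [hd])
      rw [Finset.sum_congr rfl (g := fun d => cg lam d) (fun d hd => by simp [hd])] at h0
      exact h0
    have e : GG lam = ∑' d, (if d ∈ sf Y then 0 else cg lam d) + ∑ d ∈ sf Y, cg lam d := by
      have h := n1.hasSum.add hk
      unfold GG
      rw [← h.tsum_eq]
      apply tsum_congr
      intro d
      by_cases hd : d ∈ sf Y <;> simp [hd]
    rw [e, add_sub_cancel_right]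
    refine n2.trans ?_
    have : 0 ≤ C1 * Y ^ (-(1 / 24) : ℝ) := by positivity
    nlinarith [this, hA0]

end Pool.ASY
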