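import Pool.Agent.H21.ASY.Stmts

/-!
# ASY, row FIN: the number of abc triples of radical at most `X`, from the truncated counts
-/

set_option autoImplicit false

namespace Pool.ASY

open Finset MeasureTheory Pool.Agent.H98.ABCR Pool.SHA
open scoped ArithmeticFunction.Moebius

namespace H22F

/-- the triples of height at most `Z` -/
theorem mem_iff (X Z : ℝ) (t : ℕ × ℕ) :
    (t ∈ Pool.VIO.Tri X ∧ ((t.1 + t.2 : ℕ) : ℝ) ≤ Z) ↔
      t ∈ (box Z).filter (fun v => ((rad (nn v) : ℕ) : ℝ) ≤ X) := by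
  unfold box
  rw [Finset.mem_filter, Finset.mem_filter, Finset.mem_product, Finset.mem_Icc, Finset.mem_Icc]
  constructor
  · rintro ⟨⟨h1, h2, h3, h4⟩, h5⟩
    refine ⟨⟨⟨⟨h1, Nat.le_floor (le_trans ?_ h5)⟩, ⟨h2, Nat.le_floor (le_trans ?_ h5)⟩⟩, h3, h5⟩,
      h4⟩
    · exact_mod_cast Nat.le_add_right t.1 t.2
    · exact_mod_cast Nat.le_add_left t.2 t.1
  · rintro ⟨⟨⟨⟨h1, -⟩, ⟨h2, -⟩⟩, h3, h5⟩, h4⟩
    exact ⟨⟨h1, h2, h3, h4⟩, h5⟩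

/-- the count of the triples of height at most `Z` -/
theorem cnt (X Z : ℝ) :
    ({t | t ∈ Pool.VIO.Tri X ∧ ((t.1 + t.2 : ℕ) : ℝ) ≤ Z} : Set (ℕ × ℕ)) =
      (((box Z).filter (fun v => ((rad (nn v) : ℕ) : ℝ) ≤ X) : Finset (ℕ × ℕ)) :
        Set (ℕ × ℕ)) := by
  ext t
  rw [Finset.mem_coe, ← mem_iff]
  rfl

theorem fin_of_bdd {α : Type*} (s : Set α) (B : ℝ)
    (h : ∀ F : Finset α, (F : Set α) ⊆ s → (F.card : ℝ) ≤ B) :
    s.Finite ∧ (s.ncard : ℝ) ≤ B := by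
  have hf : s.Finite := by
    by_contra hcon
    obtain ⟨t, h1, h2⟩ := Set.Infinite.exists_subset_card_eq hcon (⌊B⌋₊ + 1)
    have h3 := h t h1
    rw [h2] at h3
    have h4 := Nat.lt_floor_add_one B
    push_cast at h3
    linarith
  refine ⟨hf, ?_⟩
  have h5 := h hf.toFinset (by simp)
  rwa [← Set.ncard_eq_toFinset_card s hf] at h5

end H22F

open H22F

theorem fin_thm (h1 : S_NZX) (h2 : S_GGB) (h3 : Pool.MED.S_TOF) : S_FIN := by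
  obtain ⟨c1, C1, hc1, hC1, hN⟩ := h1
  obtain ⟨C2, hC2, hG⟩ := h2
  obtain ⟨c3, C3, hc3, hC3, hT⟩ := h3 (1 / 10000) (by norm_num)
  obtain ⟨c, hcd⟩ : ∃ c, c = min (min c1 c3) (1 / 80000) := ⟨_, rfl⟩
  have hc0 : 0 < c := by
    rw [hcd]
    exact lt_min (lt_min hc1 hc3) (by norm_num)
  have hcc1 : c ≤ c1 := by rw [hcd]; exact (min_le_left _ _).trans (min_le_left _ _)
  have hcc3 : c ≤ c3 := by rw [hcd]; exact (min_le_left _ _).trans (min_le_right _ _)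
  have hcc : c ≤ 1 / 80000 := by rw [hcd]; exact min_le_right _ _
  refine ⟨c, C1 + 2 * C2 + C3, hc0, by linarith, ?_⟩
  intro X hX
  have hX0 : 0 < X := by linarith
  obtain ⟨Z0, hZ0⟩ : ∃ Z0, Z0 = X ^ (1 / 3 + 1 / 10000 : ℝ) := ⟨_, rfl⟩
  have hZ01 : 1 ≤ Z0 := by rw [hZ0]; exact Real.one_le_rpow hX (by norm_num)
  have hZ0p : 0 < Z0 := by linarith
  -- powers of X
  have pw : ∀ a : ℝ, c ≤ a → X ^ (2 / 3 - a) ≤ X ^ (2 / 3 - c) := fun a ha =>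
    Real.rpow_le_rpow_of_exponent_le hX (by linarith)
  have pw1 : (1:ℝ) ≤ X ^ (2 / 3 - c) := Real.one_le_rpow hX (by linarith)
  have pw0 : 0 ≤ X ^ (2 / 3 - c) := by linarith
  have hl0 : Z0 / X ^ (1 / 3 : ℝ) = X ^ (1 / 10000 : ℝ) := by
    rw [hZ0, ← Real.rpow_sub hX0]
    norm_num
  -- the large heights
  have hE := fin_of_bdd {t | t ∈ Pool.VIO.Tri X ∧ Z0 < ((t.1 + t.2 : ℕ) : ℝ)}
    (C3 * X ^ (2 / 3 - c3)) (by
      intro F hF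
      apply hT X F hX
      intro v hv
      obtain ⟨⟨a1, a2, a3, a4⟩, a5⟩ := hF hv
      refine ⟨⟨a1, a2, a3⟩, a4, ?_⟩
      unfold hh
      rw [← Real.log_rpow hX0]
      apply Real.log_le_log (by positivity)
      rw [← hZ0]
      exact a5.le)
  obtain ⟨hEf, hEc⟩ := hE
  -- counts
  have hsub : ∀ S : Set (ℕ × ℕ), {t | t ∈ Pool.VIO.Tri X ∧ ((t.1 + t.2 : ℕ) : ℝ) ≤ Z0} ⊆ S →
      S ⊆ Pool.VIO.Tri X → S.Finite ∧
        |(S.ncard : ℝ) - (({t | t ∈ Pool.VIO.Tri X ∧ ((t.1 + t.2 : ℕ) : ℝ) ≤ Z0} :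
          Set (ℕ × ℕ)).ncard : ℝ)| ≤ C3 * X ^ (2 / 3 - c3) := by
    intro S hS1 hS2
    have hf0 : ({t | t ∈ Pool.VIO.Tri X ∧ ((t.1 + t.2 : ℕ) : ℝ) ≤ Z0} : Set (ℕ × ℕ)).Finite := by
      rw [cnt]
      exact Finset.finite_toSet _
    have hu : S ⊆ {t | t ∈ Pool.VIO.Tri X ∧ ((t.1 + t.2 : ℕ) : ℝ) ≤ Z0} ∪
        {t | t ∈ Pool.VIO.Tri X ∧ Z0 < ((t.1 + t.2 : ℕ) : ℝ)} := by
      intro t ht
      rcases le_or_gt ((t.1 + t.2 : ℕ) : ℝ) Z0 with h | h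
      · exact Or.inl ⟨hS2 ht, h⟩
      · exact Or.inr ⟨hS2 ht, h⟩
    have hfS : S.Finite := (hf0.union hEf).subset hu
    refine ⟨hfS, ?_⟩
    have k1 : (({t | t ∈ Pool.VIO.Tri X ∧ ((t.1 + t.2 : ℕ) : ℝ) ≤ Z0} :
          Set (ℕ × ℕ)).ncard : ℝ) ≤ S.ncard := by
      exact_mod_cast Set.ncard_le_ncard hS1 hfS
    have k2 : (S.ncard : ℝ) ≤ (({t | t ∈ Pool.VIO.Tri X ∧ ((t.1 + t.2 : ℕ) : ℝ) ≤ Z0} :
          Set (ℕ × ℕ)).ncard : ℝ) +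
          (({t | t ∈ Pool.VIO.Tri X ∧ Z0 < ((t.1 + t.2 : ℕ) : ℝ)} : Set (ℕ × ℕ)).ncard : ℝ) := by
      exact_mod_cast (Set.ncard_le_ncard hu (hf0.union hEf)).trans (Set.ncard_union_le _ _)
    rw [abs_of_nonneg (by linarith)]
    linarith
  have hcard : ∀ Z : ℝ, (({t | t ∈ Pool.VIO.Tri X ∧ ((t.1 + t.2 : ℕ) : ℝ) ≤ Z} :
      Set (ℕ × ℕ)).ncard : ℝ) =
      (((box Z).filter (fun v => ((rad (nn v) : ℕ) : ℝ) ≤ X)).card : ℝ) := by
    intro Z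
    rw [cnt, Set.ncard_coe_finset]
  have hN0 := hN X Z0 hX hZ01 (by rw [hZ0])
  rw [hl0, ← hcard] at hN0
  have hG0 := (hG (X ^ (1 / 10000 : ℝ)) (by positivity)).2.2.1
  have hpp : (X ^ (1 / 10000 : ℝ)) ^ (-(1 / 8) : ℝ) = X ^ (-(1 / 80000) : ℝ) := by
    rw [← Real.rpow_mul hX0.le]
    norm_num
  rw [hpp] at hG0
  have hmul : X ^ (2 / 3 : ℝ) * X ^ (-(1 / 80000) : ℝ) = X ^ (2 / 3 - 1 / 80000 : ℝ) := by
    rw [← Real.rpow_add hX0]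
    norm_num
  have hX23 : 0 ≤ X ^ (2 / 3 : ℝ) := by positivity
  have q1 := pw c1 hcc1
  have q3 := pw c3 hcc3
  have q2 := pw (1 / 80000) hcc
  have r1 : C1 * X ^ (2 / 3 - c1) ≤ C1 * X ^ (2 / 3 - c) :=
    mul_le_mul_of_nonneg_left q1 (by linarith)
  have r2 : C2 * X ^ (2 / 3 - 1 / 80000 : ℝ) ≤ C2 * X ^ (2 / 3 - c) :=
    mul_le_mul_of_nonneg_left q2 (by linarith)
  have r3 : C3 * X ^ (2 / 3 - c3) ≤ C3 * X ^ (2 / 3 - c) :=
    mul_le_mul_of_nonneg_left q3 (by linarith)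
  have hG0' : X ^ (2 / 3 : ℝ) * |GG (X ^ (1 / 10000 : ℝ)) - AA * SS| ≤
      C2 * X ^ (2 / 3 - 1 / 80000 : ℝ) := by
    refine (mul_le_mul_of_nonneg_left hG0 hX23).trans ?_
    rw [← hmul]
    apply le_of_eq
    ring
  have p1 : 0 ≤ C1 * X ^ (2 / 3 - c) := mul_nonneg (by linarith) pw0
  have p2 : 0 ≤ C2 * X ^ (2 / 3 - c) := mul_nonneg (by linarith) pw0
  have p3 : 0 ≤ C3 * X ^ (2 / 3 - c) := mul_nonneg (by linarith) pw0
  obtain ⟨f1, f2⟩ := hsub (Pool.VIO.Tri X) (fun t ht => ht.1) (le_refl _)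
  refine ⟨f1, ?_, ?_⟩
  · rw [abs_le] at f2 hN0 ⊢
    have hG1 : |X ^ (2 / 3 : ℝ) * (GG (X ^ (1 / 10000 : ℝ)) - AA * SS)| ≤
      C2 * X ^ (2 / 3 - 1 / 80000 : ℝ) := by
      rw [abs_mul, abs_of_nonneg hX23]
      exact hG0'
    rw [abs_le] at hG1
    have e1 : AA * SS * X ^ (2 / 3 : ℝ) = X ^ (2 / 3 : ℝ) * (AA * SS) := by ring
    rw [e1]
    rw [mul_sub] at hG1
    have e2 : (C1 + 2 * C2 + C3) * X ^ (2 / 3 - c) = C1 * X ^ (2 / 3 - c) +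
      2 * (C2 * X ^ (2 / 3 - c)) + C3 * X ^ (2 / 3 - c) := by ring
    rw [e2]
    constructor
    · linarith [f2.1, hN0.1, hG1.1]
    · linarith [f2.2, hN0.2, hG1.2]
  · intro lam hlam
    have hX13 : 0 < X ^ (1 / 3 : ℝ) := by positivity
    have hX13s : (X ^ (1 / 3 : ℝ)) ^ 2 = X ^ (2 / 3 : ℝ) := by
      rw [← Real.rpow_natCast, ← Real.rpow_mul hX0.le]
      norm_num
    have hlX : lam * X ^ (1 / 3 : ℝ) / X ^ (1 / 3 : ℝ) = lam := by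
      field_simp
    have hGl := hG lam hlam
    rcases lt_or_ge (lam * X ^ (1 / 3 : ℝ)) 1 with hz | hz
    · -- no triple
      have he : ({t | t ∈ Pool.VIO.Tri X ∧ ((t.1 + t.2 : ℕ) : ℝ) ≤ lam * X ^ (1 / 3 : ℝ)} :
          Set (ℕ × ℕ)) = ∅ := by
        ext t
        simp only [Set.mem_empty_iff_false, iff_false]
        rintro ⟨⟨a1, a2, a3, a4⟩, a5⟩
        have : (1:ℝ) ≤ ((t.1 + t.2 : ℕ) : ℝ) := by
          exact_mod_cast Nat.le_trans a1 (Nat.le_add_right _ _)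
        linarith
      rw [he, Set.ncard_empty, Nat.cast_zero, zero_sub, abs_neg, abs_mul, abs_of_nonneg hX23]
      have h8 : |GG lam| * X ^ (2 / 3 : ℝ) ≤ C2 * lam ^ 2 * X ^ (2 / 3 : ℝ) :=
        mul_le_mul_of_nonneg_right hGl.2.1 hX23
      have h9 : C2 * lam ^ 2 * X ^ (2 / 3 : ℝ) = C2 * (lam * X ^ (1 / 3 : ℝ)) ^ 2 := by
        rw [← hX13s]
        ring
      have h10 : (lam * X ^ (1 / 3 : ℝ)) ^ 2 ≤ 1 := by
        have : 0 < lam * X ^ (1 / 3 : ℝ) := by positivity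
        nlinarith
      have h11 : C2 * (lam * X ^ (1 / 3 : ℝ)) ^ 2 ≤ C2 * 1 :=
        mul_le_mul_of_nonneg_left h10 (by linarith)
      have h12 : C2 * 1 ≤ C2 * X ^ (2 / 3 - c) := mul_le_mul_of_nonneg_left pw1 (by linarith)
      linarith
    · rcases le_or_gt (lam * X ^ (1 / 3 : ℝ)) Z0 with hz2 | hz2
      · have h8 := hN X (lam * X ^ (1 / 3 : ℝ)) hX hz (by rw [← hZ0]; exact hz2)
        rw [hlX, ← hcard, mul_comm (X ^ (2 / 3 : ℝ)) (GG lam)] at h8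
        linarith
      · obtain ⟨g1, g2⟩ := hsub
          {t | t ∈ Pool.VIO.Tri X ∧ ((t.1 + t.2 : ℕ) : ℝ) ≤ lam * X ^ (1 / 3 : ℝ)}
          (fun t ht => ⟨ht.1, ht.2.trans hz2.le⟩) (fun t ht => ht.1)
        have hlam2 : X ^ (1 / 10000 : ℝ) < lam := by
          rw [← hl0, div_lt_iff₀ hX13]
          exact hz2
        have h8 : lam ^ (-(1 / 8) : ℝ) ≤ X ^ (-(1 / 80000) : ℝ) := by
          rw [← hpp]
          exact Real.rpow_le_rpow_of_nonpos (by positivity) hlam2.le (by norm_num)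
        have h9 := hGl.2.2.1
        have h10 : |X ^ (2 / 3 : ℝ) * (GG lam - AA * SS)| ≤
            C2 * X ^ (2 / 3 - 1 / 80000 : ℝ) := by
          rw [abs_mul, abs_of_nonneg hX23, ← hmul]
          calc X ^ (2 / 3 : ℝ) * |GG lam - AA * SS|
              ≤ X ^ (2 / 3 : ℝ) * (C2 * lam ^ (-(1 / 8) : ℝ)) :=
                mul_le_mul_of_nonneg_left h9 hX23
            _ ≤ X ^ (2 / 3 : ℝ) * (C2 * X ^ (-(1 / 80000) : ℝ)) := by
                apply mul_le_mul_of_nonneg_left _ hX23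
                exact mul_le_mul_of_nonneg_left h8 (by linarith)
            _ = C2 * (X ^ (2 / 3 : ℝ) * X ^ (-(1 / 80000) : ℝ)) := by ring
        have hG1 : |X ^ (2 / 3 : ℝ) * (GG (X ^ (1 / 10000 : ℝ)) - AA * SS)| ≤
          C2 * X ^ (2 / 3 - 1 / 80000 : ℝ) := by
          rw [abs_mul, abs_of_nonneg hX23]
          exact hG0'
        rw [mul_sub] at hG1 h10
        have e1 : GG lam * X ^ (2 / 3 : ℝ) = X ^ (2 / 3 : ℝ) * GG lam := by ring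
        have e2 : (C1 + 2 * C2 + C3) * X ^ (2 / 3 - c) = C1 * X ^ (2 / 3 - c) +
          2 * (C2 * X ^ (2 / 3 - c)) + C3 * X ^ (2 / 3 - c) := by ring
        rw [e1, e2]
        clear hcard hsub hEc hEf f2
        rw [abs_le] at g2 hN0 hG1 h10 ⊢
        obtain ⟨g3, g4⟩ := g2
        obtain ⟨n3, n4⟩ := hN0
        obtain ⟨G3, G4⟩ := hG1
        obtain ⟨h3, h4⟩ := h10
        constructor
        · linarith only [g3, n3, G3, h3, G4, h4, r1, r2, r3]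
        · linarith only [g4, n4, G4, h4, G3, h3, r1, r2, r3]

end Pool.ASY
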